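import Mathlib

/-!
# Groups of order `3660 = 60 · 61`

Let `G` be a non-solvable group of order `3660`.  Its Sylow `61`-subgroup `P` is normal, and central,
as `G / C(P)` is abelian and groups whose order properly divides `60` are solvable.  A coset of `P`
contains at most one element of order less than `61`, so at least `3600` elements of `G` have order
at least `61`.  In the affine group of the field with `61` elements all elements have order at most
`61`, and `62` elements have order at most `2`.  So the order sequence of `G` dominates that of the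
affine group, and is different from it.
-/

namespace Pool.Agent.Results.MP_e15593_al.MinimalOrderSequence

/-- The order sequence of a finite group: the sorted list of the orders of all its elements. -/
noncomputable def os (G : Type) [Group G] [Finite G] : List ℕ :=
  let _ := Fintype.ofFinite G
  (Finset.univ.val.map fun g : G => orderOf g).sort (· ≤ ·)

/-- Entrywise domination of sequences of the same length. -/
def Dominates (a b : List ℕ) : Prop := List.Forall₂ (fun x y => y ≤ x) a b

/-- `G` has minimal order sequence among the groups of the same order. -/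
def HasMinimalOS (G : Type) [Group G] [Finite G] : Prop :=
  ∀ (H : Type) [Group H] [Finite H], Nat.card H = Nat.card G → Dominates (os G) (os H) →
    os H = os G

/-! ### Sorted lists -/

theorem count_os (G : Type) [Group G] [Finite G] (t : ℕ) :
    (os G).countP (fun x => x ≤ t) = Set.ncard {g : G | orderOf g ≤ t} := by
  let _ := Fintype.ofFinite G
  classical
  have h1 : (os G).countP (fun x => x ≤ t) =
      ((os G : List ℕ) : Multiset ℕ).countP (fun x => x ≤ t) := by
    rw [Multiset.coe_countP]
  rw [h1, os, Multiset.sort_eq, Multiset.countP_map, Set.ncard_eq_toFinset_card']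
  congr 1
  ext g
  simp [Finset.filter]

theorem length_os (G : Type) [Group G] [Finite G] : (os G).length = Nat.card G := by
  let _ := Fintype.ofFinite G
  rw [os, Multiset.length_sort, Multiset.card_map, Nat.card_eq_fintype_card]
  rfl

theorem sorted_os (G : Type) [Group G] [Finite G] : (os G).Pairwise (· ≤ ·) := by
  rw [os]
  exact Multiset.pairwise_sort _ _

theorem dominates_of_count {a b : List ℕ} (ha : a.Pairwise (· ≤ ·)) (hb : b.Pairwise (· ≤ ·))
    (hl : a.length = b.length)
    (h : ∀ t, a.countP (fun x => x ≤ t) ≤ b.countP (fun x => x ≤ t)) : Dominates a b := by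
  rw [Dominates, List.forall₂_iff_get]
  refine ⟨hl, fun i h1 h2 => ?_⟩
  by_contra hc
  rw [not_le] at hc
  have c1 : i + 1 ≤ a.countP (fun x => x ≤ a.get ⟨i, h1⟩) := by
    have e : (a.take (i + 1)).countP (fun x => x ≤ a.get ⟨i, h1⟩) = (a.take (i + 1)).length := by
      rw [List.countP_eq_length]
      intro x hx
      obtain ⟨j, hj, rfl⟩ := List.getElem_of_mem hx
      rw [List.getElem_take]
      have hj' : j < i + 1 := by
        rw [List.length_take] at hj
        omega
      simp only [List.get_eq_getElem, decide_eq_true_eq]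
      rcases Nat.lt_or_ge j i with hji | hji
      · exact List.pairwise_iff_getElem.1 ha j i _ _ hji
      · have : j = i := by omega
        subst this
        exact le_refl _
    calc i + 1 = (a.take (i + 1)).length := by rw [List.length_take]; omega
      _ = (a.take (i + 1)).countP (fun x => x ≤ a.get ⟨i, h1⟩) := e.symm
      _ ≤ a.countP (fun x => x ≤ a.get ⟨i, h1⟩) := (List.take_sublist _ _).countP_le
  have c2 : b.countP (fun x => x ≤ a.get ⟨i, h1⟩) ≤ i := by
    have e : b.countP (fun x => x ≤ a.get ⟨i, h1⟩) =
        (b.take i).countP (fun x => x ≤ a.get ⟨i, h1⟩) +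
        (b.drop i).countP (fun x => x ≤ a.get ⟨i, h1⟩) := by
      rw [← List.countP_append, List.take_append_drop]
    have e2 : (b.drop i).countP (fun x => x ≤ a.get ⟨i, h1⟩) = 0 := by
      rw [List.countP_eq_zero]
      intro x hx
      obtain ⟨j, hj, rfl⟩ := List.getElem_of_mem hx
      rw [List.getElem_drop]
      simp only [decide_eq_true_eq, not_le]
      refine lt_of_lt_of_le hc ?_
      rcases Nat.eq_zero_or_pos j with hj0 | hj0
      · subst hj0
        simp
      · rw [List.get_eq_getElem]
        exact List.pairwise_iff_getElem.1 hb i (i + j) _ _ (by omega)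
    rw [e, e2, add_zero]
    refine List.countP_le_length.trans ?_
    rw [List.length_take]
    omega
  have := h (a.get ⟨i, h1⟩)
  omega

/-! ### Small groups -/

theorem solvable_12 {G : Type} [Group G] [Finite G] (h : Nat.card G = 12) :
    Group.IsSolvable G := by
  have : Fact (Nat.Prime 2) := ⟨Nat.prime_two⟩
  obtain ⟨H, hH⟩ := Sylow.exists_subgroup_card_pow_prime (G := G) 2 (n := 2) (by rw [h]; norm_num)
  have hi : H.index = 3 := by
    have := H.card_mul_index
    rw [hH, h] at this
    omega
  have hcard : Nat.card (G ⧸ H) = 3 := by rw [← Subgroup.index_eq_card, hi]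
  have hperm : Nat.card (Equiv.Perm (G ⧸ H)) = 6 := by
    rw [Nat.card_perm, hcard]
    rfl
  have : IsZGroup (Equiv.Perm (G ⧸ H)) := by
    apply IsZGroup.of_squarefree
    rw [hperm]
    decide +kernel
  have hs : Group.IsSolvable (Equiv.Perm (G ⧸ H)) := inferInstance
  have hp : IsPGroup 2 H := IsPGroup.of_card hH
  have hnil := hp.isNilpotent
  have hker : (MulAction.toPermHom G (G ⧸ H)).ker ≤ H := by
    rw [← Subgroup.normalCore_eq_ker]
    exact Subgroup.normalCore_le H
  refine Group.isSolvable_of_ker_le_range H.subtype (MulAction.toPermHom G (G ⧸ H)) ?_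
  rwa [Subgroup.range_subtype]

theorem exists_normal {G : Type} [Group G] [Finite G] {q m : ℕ} [hq : Fact q.Prime] (hm : m < q)
    (h : Nat.card G = q * m) : ∃ P : Subgroup G, P.Normal ∧ Nat.card P = q := by
  obtain ⟨P⟩ := (inferInstance : Nonempty (Sylow q G))
  have hm0 : 0 < m := by
    rcases Nat.eq_zero_or_pos m with h0 | h0
    · rw [h0, mul_zero] at h
      exact absurd h Nat.card_pos.ne'
    · exact h0
  have hP : Nat.card P = q := by
    rw [P.card_eq_multiplicity, h, Nat.factorization_mul hq.out.ne_zero hm0.ne', Finsupp.add_apply,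
      hq.out.factorization_self, Nat.factorization_eq_zero_of_lt hm, pow_one]
  have hi : (P : Subgroup G).index = m := by
    have h1 := (P : Subgroup G).card_mul_index
    rw [h] at h1
    have h2 : Nat.card (P : Subgroup G) = q := hP
    rw [h2] at h1
    exact Nat.eq_of_mul_eq_mul_left hq.out.pos h1
  have h1 : Nat.card (Sylow q G) ∣ m := by rw [← hi]; exact P.card_dvd_index
  have h2 := card_sylow_modEq_one q G
  have h3 := Nat.le_of_dvd hm0 h1
  have h4 : Nat.card (Sylow q G) = 1 := by
    have h5 : Nat.card (Sylow q G) % q = 1 % q := h2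
    rw [Nat.mod_eq_of_lt (by omega), Nat.mod_eq_of_lt hq.out.one_lt] at h5
    exact h5
  have h5 : Subsingleton (Sylow q G) := (Nat.card_eq_one_iff_unique.1 h4).1
  exact ⟨P, Sylow.normal_of_subsingleton P, hP⟩

theorem isSolvable_of_normal {G : Type} [Group G] (N : Subgroup G) [N.Normal]
    (h1 : Group.IsSolvable N) (h2 : Group.IsSolvable (G ⧸ N)) : Group.IsSolvable G := by
  refine Group.isSolvable_of_ker_le_range N.subtype (QuotientGroup.mk' N) ?_
  rw [QuotientGroup.ker_mk', Subgroup.range_subtype]

theorem solvable_20 {G : Type} [Group G] [Finite G] (h : Nat.card G = 20) :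
    Group.IsSolvable G := by
  have : Fact (Nat.Prime 5) := ⟨by norm_num⟩
  have : Fact (Nat.Prime 2) := ⟨Nat.prime_two⟩
  obtain ⟨P, hn, hP⟩ := exists_normal (G := G) (q := 5) (m := 4) (by norm_num) h
  have hi : Nat.card (G ⧸ P) = 4 := by
    have := P.card_mul_index
    rw [hP, h, Subgroup.index_eq_card] at this
    omega
  refine isSolvable_of_normal P ?_ ?_
  · have : IsPGroup 5 P := IsPGroup.of_card (n := 1) (by rw [hP]; norm_num)
    have := this.isNilpotent
    infer_instance
  · have : IsPGroup 2 (G ⧸ P) := IsPGroup.of_card (n := 2) (by rw [hi]; norm_num)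
    have := this.isNilpotent
    infer_instance

theorem solvable_small {G : Type} [Group G] [Finite G] (h : Nat.card G ∣ 60)
    (h' : Nat.card G ≠ 60) : Group.IsSolvable G := by
  have hmem : Nat.card G ∈ Nat.divisors 60 := Nat.mem_divisors.2 ⟨h, by norm_num⟩
  have hd : Nat.divisors 60 = {1, 2, 3, 4, 5, 6, 10, 12, 15, 20, 30, 60} := by decide +kernel
  rw [hd] at hmem
  simp only [Finset.mem_insert, Finset.mem_singleton] at hmem
  have sq : ∀ n, Squarefree n → Nat.card G = n → Group.IsSolvable G := by
    intro n hn hc
    have : IsZGroup G := IsZGroup.of_squarefree (by rw [hc]; exact hn)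
    infer_instance
  rcases hmem with h | h | h | h | h | h | h | h | h | h | h | h
  · exact sq 1 (by decide +kernel) h
  · exact sq 2 (by decide +kernel) h
  · exact sq 3 (by decide +kernel) h
  · have : Fact (Nat.Prime 2) := ⟨Nat.prime_two⟩
    have : IsPGroup 2 G := IsPGroup.of_card (n := 2) (by rw [h]; norm_num)
    have := this.isNilpotent
    infer_instance
  · exact sq 5 (by decide +kernel) h
  · exact sq 6 (by decide +kernel) h
  · exact sq 10 (by decide +kernel) h
  · exact solvable_12 h
  · exact sq 15 (by decide +kernel) h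
  · exact solvable_20 h
  · exact sq 30 (by decide +kernel) h
  · exact absurd h h'

/-! ### Non-solvable groups of order `3660` -/

theorem central {G : Type} [Group G] [Finite G] (h : Nat.card G = 3660)
    (hs : ¬ Group.IsSolvable G) :
    ∃ P : Subgroup G, P.Normal ∧ Nat.card P = 61 ∧ ∀ z ∈ P, ∀ g : G, g * z = z * g := by
  have : Fact (Nat.Prime 61) := ⟨by norm_num⟩
  obtain ⟨P, hn, hP⟩ := exists_normal (G := G) (q := 61) (m := 60) (by norm_num) h
  refine ⟨P, hn, hP, ?_⟩
  have hcyc : IsCyclic P := isCyclic_of_prime_card hP
  have hPs : IsPGroup 61 P := IsPGroup.of_card (n := 1) (by rw [hP]; norm_num)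
  have hPs' := hPs.isNilpotent
  let f : G →* MulAut P := MulAut.conjNormal
  have hf : Group.IsSolvable f.range := by
    have e : MulAut P ≃* (ZMod (Nat.card P))ˣ := IsCyclic.mulAutMulEquiv P
    exact Group.isSolvable_of_isSolvable_injective
      (f := e.toMonoidHom.comp f.range.subtype)
      (e.injective.comp (Subgroup.subtype_injective _))
  have hker : f.ker = ⊤ := by
    by_contra hc
    apply hs
    have hk : Group.IsSolvable f.ker := by
      -- `P ≤ ker f`
      have hPk : P ≤ f.ker := by
        intro z hz
        rw [MonoidHom.mem_ker]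
        ext w
        have hcomm : (⟨z, hz⟩ : P) * w = w * ⟨z, hz⟩ := by
          have := IsCyclic.isMulCommutative (α := P)
          exact this.is_comm.comm _ _
        have h1 : z * (w : G) = w * z := congrArg Subtype.val hcomm
        change ((MulAut.conjNormal z w : P) : G) = w
        rw [MulAut.conjNormal_apply, h1, mul_inv_cancel_right]
      have e1 : Nat.card (P.subgroupOf f.ker) = 61 := by
        rw [Nat.card_congr (Subgroup.subgroupOfEquivOfLe hPk).toEquiv, hP]
      have e2 : Nat.card (f.ker ⧸ P.subgroupOf f.ker) * 61 = Nat.card f.ker := by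
        have := (P.subgroupOf f.ker).card_mul_index
        rw [e1, Subgroup.index_eq_card] at this
        rw [← this, mul_comm]
      have e3 : Nat.card f.ker ∣ 3660 := by rw [← h]; exact Subgroup.card_subgroup_dvd_card _
      have e4 : Nat.card (f.ker ⧸ P.subgroupOf f.ker) ∣ 60 := by
        rw [← e2] at e3
        exact Nat.dvd_of_mul_dvd_mul_right (k := 61) (by norm_num) e3
      have e5 : Nat.card (f.ker ⧸ P.subgroupOf f.ker) ≠ 60 := by
        intro h6
        rw [h6] at e2
        apply hc
        apply Subgroup.eq_top_of_card_eq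
        rw [← e2, h]
      refine isSolvable_of_normal (P.subgroupOf f.ker) ?_ (solvable_small e4 e5)
      exact Group.isSolvable_of_isSolvable_injective
        (f := (Subgroup.subgroupOfEquivOfLe hPk).toMonoidHom)
        (Subgroup.subgroupOfEquivOfLe hPk).injective
    refine Group.isSolvable_of_ker_le_range f.ker.subtype f.rangeRestrict ?_
    rw [Subgroup.range_subtype, MonoidHom.ker_rangeRestrict]
  intro z hz g
  have hg : g ∈ f.ker := by rw [hker]; trivial
  rw [MonoidHom.mem_ker] at hg
  have h1 : ((f g ⟨z, hz⟩ : P) : G) = z := by rw [hg]; rfl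
  change ((MulAut.conjNormal g ⟨z, hz⟩ : P) : G) = z at h1
  rw [MulAut.conjNormal_apply] at h1
  exact mul_inv_eq_iff_eq_mul.1 h1

theorem count_G {G : Type} [Group G] [Finite G] (h : Nat.card G = 3660)
    (hs : ¬ Group.IsSolvable G) : Set.ncard {g : G | orderOf g ≤ 60} ≤ 60 := by
  obtain ⟨P, hn, hP, hc⟩ := central h hs
  have hq : Nat.card (G ⧸ P) = 60 := by
    have := P.card_mul_index
    rw [hP, h, Subgroup.index_eq_card] at this
    omega
  have hp : Nat.Prime 61 := by norm_num
  have key : Set.InjOn (fun g : G => (g : G ⧸ P)) {g : G | orderOf g ≤ 60} := by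
    intro g hg k hk hgk
    simp only [Set.mem_ofPred_eq] at hg hk
    have hz : g⁻¹ * k ∈ P := QuotientGroup.eq.1 hgk
    obtain ⟨z, hzz⟩ : ∃ z, z = g⁻¹ * k := ⟨_, rfl⟩
    rw [← hzz] at hz
    have hk2 : k = g * z := by rw [hzz]; group
    have hz1 : orderOf z = 1 ∨ orderOf z = 61 := by
      rw [← Nat.dvd_prime hp, ← hP, ← Subgroup.orderOf_mk z hz]
      exact orderOf_dvd_natCard _
    rcases hz1 with h1 | h1
    · rw [orderOf_eq_one_iff] at h1
      rw [hk2, h1, mul_one]
    · exfalso
      have hcop : (orderOf g).Coprime (orderOf z) := by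
        rw [h1, Nat.coprime_comm, hp.coprime_iff_not_dvd]
        intro hd
        have := Nat.le_of_dvd (orderOf_pos g) hd
        omega
      have := (show Commute g z from hc z hz g).orderOf_mul_eq_mul_orderOf_of_coprime hcop
      rw [← hk2, h1] at this
      have := orderOf_pos g
      nlinarith
  rw [← key.ncard_image, ← hq]
  exact Set.ncard_le_card _

/-! ### The affine group -/

/-- The affine group of the field with `61` elements. -/
@[ext] structure Af where
  a : (ZMod 61)ˣ
  b : ZMod 61

instance : Fact (Nat.Prime 61) := ⟨by norm_num⟩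

namespace Af

instance : Mul Af := ⟨fun x y => ⟨x.a * y.a, x.b + x.a * y.b⟩⟩
instance : One Af := ⟨⟨1, 0⟩⟩
instance : Inv Af := ⟨fun x => ⟨x.a⁻¹, - (x.a⁻¹ : (ZMod 61)ˣ) * x.b⟩⟩

@[simp] theorem mul_a (x y : Af) : (x * y).a = x.a * y.a := rfl
@[simp] theorem mul_b (x y : Af) : (x * y).b = x.b + x.a * y.b := rfl
@[simp] theorem one_a : (1 : Af).a = 1 := rfl
@[simp] theorem one_b : (1 : Af).b = 0 := rfl
@[simp] theorem inv_a (x : Af) : (x⁻¹).a = x.a⁻¹ := rfl
@[simp] theorem inv_b (x : Af) : (x⁻¹).b = - (x.a⁻¹ : (ZMod 61)ˣ) * x.b := rfl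

instance : Group Af := Group.ofLeftAxioms
  (by
    intro x y z
    ext
    · simp [mul_assoc]
    · simp; ring)
  (by intro x; ext <;> simp)
  (by
    intro x
    ext
    · simp
    · change -((x.a⁻¹ : (ZMod 61)ˣ) : ZMod 61) * x.b + ((x.a⁻¹ : (ZMod 61)ˣ) : ZMod 61) * x.b = 0
      ring)

/-- The affine group as a product of sets. -/
def equivProd : Af ≃ (ZMod 61)ˣ × ZMod 61 where
  toFun x := (x.a, x.b)
  invFun x := ⟨x.1, x.2⟩
  left_inv _ := rfl
  right_inv _ := rfl

instance : Finite Af := Finite.of_equiv _ equivProd.symm

theorem card : Nat.card Af = 3660 := by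
  rw [Nat.card_congr equivProd, Nat.card_prod, Nat.card_zmod, Nat.card_eq_fintype_card,
    ZMod.card_units]

theorem pow_a (x : Af) (n : ℕ) : (x ^ n).a = x.a ^ n := by
  induction n with
  | zero => simp
  | succ n ih => rw [pow_succ, mul_a, ih, pow_succ]

theorem pow_b (x : Af) (n : ℕ) : (x ^ n).b = (∑ j ∈ Finset.range n, (x.a : ZMod 61) ^ j) * x.b := by
  induction n with
  | zero => simp
  | succ n ih =>
    rw [pow_succ, mul_b, ih, pow_a, Finset.sum_range_succ, Units.val_pow_eq_pow_val]
    ring

theorem orderOf_le (x : Af) : orderOf x ≤ 61 := by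
  by_cases h : x.a = 1
  · refine orderOf_le_of_pow_eq_one (by norm_num) ?_
    ext
    · rw [pow_a, h]; simp
    · rw [pow_b, h]
      simp
      left
      exact ZMod.natCast_self 61
  · refine (orderOf_le_of_pow_eq_one (n := 60) (by norm_num) ?_).trans (by norm_num)
    have h60 : x.a ^ 60 = 1 := ZMod.units_pow_card_sub_one_eq_one 61 x.a
    have h60' : (x.a : ZMod 61) ^ 60 = 1 := by
      rw [← Units.val_pow_eq_pow_val, h60, Units.val_one]
    ext
    · rw [pow_a, h60]; simp
    · have h1 : (x.a : ZMod 61) ≠ 1 := fun h' => h (Units.ext h')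
      have h2 := mul_neg_geom_sum (x.a : ZMod 61) 60
      rw [h60', sub_self, mul_eq_zero, sub_eq_zero] at h2
      rcases h2 with h2 | h2
      · exact absurd h2.symm h1
      · rw [pow_b, h2]
        simp

theorem count_two : 62 ≤ Set.ncard {x : Af | orderOf x ≤ 2} := by
  let f : Option (ZMod 61) → Af := fun o => o.elim 1 fun b => ⟨-1, b⟩
  have hf : Function.Injective f := by
    have hne : (1 : (ZMod 61)ˣ) ≠ -1 := by decide +kernel
    rintro (_ | b) (_ | c) h
    · rfl
    · exact absurd (congrArg Af.a h) hne
    · exact absurd (congrArg Af.a h).symm hne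
    · have := congrArg Af.b h
      exact congrArg some this
  have hr : Set.range f ⊆ {x : Af | orderOf x ≤ 2} := by
    rintro _ ⟨o, rfl⟩
    refine orderOf_le_of_pow_eq_one (by norm_num) ?_
    rcases o with _ | b
    · exact one_pow _
    · ext
      · rw [pow_a]
        simp [f]
      · rw [pow_b]
        simp [f, Finset.sum_range_succ]
  have h1 : Set.ncard (Set.range f) = 62 := by
    rw [← Set.image_univ, Set.ncard_image_of_injective _ hf, Set.ncard_univ,
      Nat.card_eq_fintype_card, Fintype.card_option, ZMod.card]
  rw [← h1]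
  exact Set.ncard_le_ncard hr

end Af

theorem not_minimal {G : Type} [Group G] [Finite G] (h : Nat.card G = 3660)
    (hs : ¬ Group.IsSolvable G) : ¬ HasMinimalOS G := by
  intro hm
  have hcG := count_G h hs
  have hcount : ∀ t, (os G).countP (fun x => x ≤ t) ≤ (os Af).countP (fun x => x ≤ t) := by
    intro t
    rw [count_os, count_os]
    rcases Nat.lt_or_ge t 61 with ht | ht
    · rcases Nat.lt_or_ge t 2 with ht2 | ht2
      · rcases Nat.eq_zero_or_pos t with ht0 | ht0
        · subst ht0
          have : {g : G | orderOf g ≤ 0} = ∅ := by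
            ext g
            have := orderOf_pos g
            simp only [Set.mem_ofPred_eq, Set.mem_empty_iff_false, iff_false]
            omega
          rw [this, Set.ncard_empty]
          exact Nat.zero_le _
        · have ht1 : t = 1 := by omega
          subst ht1
          have e1 : {g : G | orderOf g ≤ 1} = {1} := by
            ext g
            have := orderOf_pos g
            simp only [Set.mem_ofPred_eq, Set.mem_singleton_iff]
            rw [← orderOf_eq_one_iff]
            omega
          rw [e1, Set.ncard_singleton]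
          have : ({1} : Set Af) ⊆ {g : Af | orderOf g ≤ 1} := by
            rintro _ rfl
            simp
          calc 1 = Set.ncard ({1} : Set Af) := (Set.ncard_singleton _).symm
            _ ≤ _ := Set.ncard_le_ncard this
      · have h1 : Set.ncard {g : G | orderOf g ≤ t} ≤ Set.ncard {g : G | orderOf g ≤ 60} := by
          refine Set.ncard_le_ncard ?_
          intro g hg
          simp only [Set.mem_ofPred_eq] at hg ⊢
          omega
        have h2 : Set.ncard {g : Af | orderOf g ≤ 2} ≤ Set.ncard {g : Af | orderOf g ≤ t} := by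
          refine Set.ncard_le_ncard ?_
          intro g hg
          simp only [Set.mem_ofPred_eq] at hg ⊢
          omega
        have h3 := Af.count_two
        omega
    · have h1 : {g : Af | orderOf g ≤ t} = Set.univ := by
        rw [Set.eq_univ_iff_forall]
        intro g
        exact (Af.orderOf_le g).trans ht
      rw [h1, Set.ncard_univ, Af.card, ← h]
      exact Set.ncard_le_card _
  have hdom : Dominates (os G) (os Af) :=
    dominates_of_count (sorted_os G) (sorted_os Af) (by rw [length_os, length_os, h, Af.card])
      hcount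
  have heq := hm Af (by rw [h, Af.card]) hdom
  have h1 := count_os G 60
  have h2 := count_os Af 60
  rw [heq, h1] at h2
  have h3 := Af.count_two
  have h4 : Set.ncard {g : Af | orderOf g ≤ 2} ≤ Set.ncard {g : Af | orderOf g ≤ 60} := by
    refine Set.ncard_le_ncard ?_
    intro g hg
    simp only [Set.mem_ofPred_eq] at hg ⊢
    omega
  omega

/-- There is a number `n` such that some group of order `n` is non-solvable and every group of order
`n` with minimal order sequence is solvable. -/
theorem result : ∃ n : ℕ,
    (∃ (G : Type) (_ : Group G), Finite G ∧ Nat.card G = n ∧ ¬ Group.IsSolvable G) ∧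
    ∀ (G : Type) [Group G] [Finite G], Nat.card G = n → HasMinimalOS G → Group.IsSolvable G := by
  refine ⟨3660, ⟨Multiplicative (ZMod 61) × alternatingGroup (Fin 5), inferInstance, inferInstance,
    ?_, ?_⟩, ?_⟩
  · rw [Nat.card_prod, Nat.card_congr Multiplicative.toAdd, Nat.card_zmod]
    have : Nat.card (alternatingGroup (Fin 5)) = 60 := by
      rw [nat_card_alternatingGroup, Nat.card_fin]
      rfl
    rw [this]
  · intro hs
    have h1 : Group.IsSolvable (alternatingGroup (Fin 5)) :=
      Group.isSolvable_of_surjective
        (f := MonoidHom.snd (Multiplicative (ZMod 61)) (alternatingGroup (Fin 5)))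
        Prod.snd_surjective
    have h2 := (IsSimpleGroup.comm_iff_isSolvable (G := alternatingGroup (Fin 5))).2 h1
    have h3 := h2
      ⟨Equiv.swap 0 1 * Equiv.swap 1 2, by rw [Equiv.Perm.mem_alternatingGroup]; decide⟩
      ⟨Equiv.swap 0 1 * Equiv.swap 1 3, by rw [Equiv.Perm.mem_alternatingGroup]; decide⟩
    have h4 := congrArg (fun x : alternatingGroup (Fin 5) => (x : Equiv.Perm (Fin 5)) 0) h3
    revert h4
    decide
  · intro G _ _ h hm
    by_contra hs
    exact not_minimal h hs hm

end Pool.Agent.Results.MP_e15593_al.MinimalOrderSequence
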